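import Pool.Agent.N639.FH.FinQ

/-!
# All words of all lengths in the digits of multiples of `p ^ N` and in the lowest digits of `p ^ n`

Let `p, q ≥ 2` be coprime. (1) For almost all `m ≤ M`, all words of all lengths `w` occur in all windows of
`L` places of the base `q` expansion of `m p ^ N + y` as often as expected, namely `L / q ^ w` times with an
error of at most `(log M) ^ η (1 + √(L / q ^ w))`. Here `N ≤ A log M`, `A` and `y` are arbitrary, and the
places are `0, …, ⌊N log_q p⌋ - 1`, all places of `p ^ N` but the highest one. (2) If `q` is prime then the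
same holds for almost all powers `p ^ n` themselves, `n₀ ≤ n < n₀ + M`, and the places between `δ log M`
and `A log M`, with `A` as large as we like. The exceptional sets have at most `M (log M) ^ (-K)`
elements, for every `K`.

Proof. Tests with a bounded number of words have errors `O(M ^ (-c))`: for (1) see
`Pool/Agent/Y933/KE/Pows.lean` (helper933, by the subspace theorem), for (2) this follows from the
exponential sums over powers modulo prime powers of `Pool/Agent/W301/TD/ExpSum.lean` (method of Korobov).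
The law follows from moments of high order, which are sums of such tests over the words of length
`O(log log M)`. Authors: helper639, with parts by helper199, helper407 and helper586.
-/

set_option autoImplicit false

namespace Pool.Agent.Results.MP_b08cb4_nt.AllWordsOfAllLengths

open Finset Real

/-- the word of `w` digits of `Y` in base `q` whose highest digit stands at the place `i` (the place
of `q ^ i`), read as an integer between `0` and `q ^ w - 1` -/
def word (q w i Y : ℕ) : ℕ := Y / q ^ (i + 1 - w) % q ^ w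

/-- every word `c` of every length `w` stands in every window `t ≤ i < t + N` (the places of the
highest digit of the word) at `N / q ^ w` places, up to `E (1 + √(N / q ^ w))`; all digits of the words
stand at the places `lo, …, hi - 1` -/
def AllWords (q lo hi : ℕ) (E : ℝ) (Y : ℕ) : Prop :=
  ∀ w t N c : ℕ, lo + w ≤ t + 1 → t + N ≤ hi → c < q ^ w →
    |(((Ico t (t + N)).filter fun i => word q w i Y = c).card : ℝ) - N / (q : ℝ) ^ w| ≤
      E * (1 + √(N / (q : ℝ) ^ w))

open Classical in
/-- **All words of all lengths** in (1) the digits of the multiples `m p ^ N + y`, `1 ≤ m ≤ M`,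
(2) the lowest digits of the numbers `l p ^ n`, `0 ≤ n < M`, where `l` is not divisible by `q` (for
instance `l = p ^ n₀`). -/
theorem result (p q : ℕ) (hp : 2 ≤ p) (hq : 2 ≤ q) (hpq : p.Coprime q) (A η : ℝ) (hη : 0 < η)
    (K : ℕ) :
    (∃ M₀ : ℕ, ∀ M : ℕ, M₀ ≤ M → ∀ N y hi : ℕ, (N : ℝ) ≤ A * log M → q ^ hi ≤ p ^ N →
      (((Icc 1 M).filter fun m => ¬ AllWords q 0 hi ((log M) ^ η) (m * p ^ N + y)).card : ℝ) ≤
        M / (log M) ^ K) ∧
    (q.Prime → ∀ δ : ℝ, 0 < δ → ∃ M₀ : ℕ, ∀ M : ℕ, M₀ ≤ M → ∀ l lo hi : ℕ, ¬ q ∣ l →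
      δ * log M ≤ lo → lo ≤ hi → (hi : ℝ) ≤ A * log M →
      (((range M).filter fun n => ¬ AllWords q lo hi ((log M) ^ η) (l * p ^ n)).card : ℝ) ≤
        M / (log M) ^ K) := by
  constructor
  · obtain ⟨A', hA', S, hT, hS⟩ := Pool.Agent.N639.FH.fam_mul hp hq hpq A
    obtain ⟨M₀, hM₀⟩ := Filter.eventually_atTop.1
      ((Pool.Agent.N639.FH.low1 hq hT (by positivity : 0 < η / 2) (K + 1)).and
        ((Pool.Agent.N639.FH.err1 hA' hη K).and (Filter.eventually_ge_atTop 1)))
    refine ⟨M₀, fun M hM N y hi hN h => ?_⟩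
    obtain ⟨h1, ⟨h2, h3⟩, h4⟩ := hM₀ M hM
    obtain ⟨g1, g2⟩ := hS M h4 N y hi hN h
    have key := h1 ℕ (Icc 1 M) (fun m => m * p ^ N + y) 0 hi g1 g2
    have hc : ((Icc 1 M).card : ℝ) = M := by rw [Nat.card_Icc]; simp
    rw [hc] at key
    refine le_trans ?_ (key.trans ?_)
    · have hsub : ((Icc 1 M).filter fun m => ¬ AllWords q 0 hi ((log M) ^ η) (m * p ^ N + y)) ⊆
          ((Icc 1 M).filter fun m => ¬ ∀ w t N' c : ℕ, 0 + w ≤ t + 1 → t + N' ≤ hi → c < q ^ w →
          |(((Ico t (t + N')).filter fun i =>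
            Pool.Agent.N639.FH.wo q w i (m * p ^ N + y) = c).card : ℝ) - N' / (q : ℝ) ^ w| ≤
          (A' * log M) ^ (η / 2) * (1 + √(N' / (q : ℝ) ^ w))) := by
        intro m hm
        rw [mem_filter] at hm ⊢
        refine ⟨hm.1, fun hcon => hm.2 fun w t N' c k1 k2 k3 => ?_⟩
        refine (hcon w t N' c k1 k2 k3).trans ?_
        gcongr
      exact_mod_cast card_le_card hsub
    · rw [div_eq_inv_mul]
      gcongr
  · intro hqp δ hδ
    obtain ⟨A', hA', S, hT, hS⟩ := Pool.Agent.N639.FH.fam_pow hp hqp hpq hδ A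
    obtain ⟨M₀, hM₀⟩ := Filter.eventually_atTop.1
      ((Pool.Agent.N639.FH.low1 hq hT (by positivity : 0 < η / 2) (K + 1)).and
        ((Pool.Agent.N639.FH.err1 hA' hη K).and (Filter.eventually_ge_atTop 1)))
    refine ⟨M₀, fun M hM l lo hi hl hlo hlh hhi => ?_⟩
    obtain ⟨h1, ⟨h2, h3⟩, h4⟩ := hM₀ M hM
    obtain ⟨g1, g2⟩ := hS M h4 l lo hi hl hlo hlh hhi
    have key := h1 ℕ (range M) (fun n => l * p ^ n) lo hi g1 g2
    rw [card_range] at key
    refine le_trans ?_ (key.trans ?_)
    · have hsub : ((range M).filter fun n => ¬ AllWords q lo hi ((log M) ^ η) (l * p ^ n)) ⊆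
          ((range M).filter fun n => ¬ ∀ w t N' c : ℕ, lo + w ≤ t + 1 → t + N' ≤ hi → c < q ^ w →
          |(((Ico t (t + N')).filter fun i =>
            Pool.Agent.N639.FH.wo q w i (l * p ^ n) = c).card : ℝ) - N' / (q : ℝ) ^ w| ≤
          (A' * log M) ^ (η / 2) * (1 + √(N' / (q : ℝ) ^ w))) := by
        intro m hm
        rw [mem_filter] at hm ⊢
        refine ⟨hm.1, fun hcon => hm.2 fun w t N' c k1 k2 k3 => ?_⟩
        refine (hcon w t N' c k1 k2 k3).trans ?_
        gcongr
      exact_mod_cast card_le_card hsub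
    · rw [div_eq_inv_mul]
      gcongr

end Pool.Agent.Results.MP_b08cb4_nt.AllWordsOfAllLengths
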