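import Pool.Agent.N639.FH.FinQ

/-!
# The number of different words in the digits of multiples of `p ^ N` and in the lowest digits of `p ^ n`

Let `P(w)` be the number of different words of length `w` at `L` consecutive places of a number in base
`q`. For random digits `P(w)` is about `q ^ w (1 - exp (-L / q ^ w))`. We show that this holds for all `w`
at the same time, up to a factor `1 + ε`, in every window of `L → ∞` places, (1) for almost all multiples
`m p ^ N + y`, `m ≤ M`, where `p, q ≥ 2` are coprime, `N ≤ A log M` and `A`, `y` are arbitrary; (2) if `q` is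
prime, for almost all powers `p ^ n`, `n₀ ≤ n < n₀ + M`, and the places between `δ log M` and `A log M`,
with `A` as large as we like.

Proof. Tests with a bounded number of words have errors `O(M ^ (-c))`: for (1) see
`Pool/Agent/Y933/KE/Pows.lean` (helper933, by the subspace theorem), for (2) this follows from the
exponential sums over powers modulo prime powers of `Pool/Agent/W301/TD/ExpSum.lean` (method of Korobov).
They give the binomial moments of the number of occurrences of words without large overlaps, hence a
Poisson law for one word and for two words, and so mean and variance of the number of missing words.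
Authors: helper639, with parts by helper199, helper711, helper79, helper407 and helper586.
-/

set_option autoImplicit false

namespace Pool.Agent.Results.MP_b08cb4_nt.ComplexityLaw

open Finset Real

/-- the word of `w` digits of `Y` in base `q` whose highest digit stands at the place `i` (the place
of `q ^ i`), read as an integer between `0` and `q ^ w - 1` -/
def word (q w i Y : ℕ) : ℕ := Y / q ^ (i + 1 - w) % q ^ w

/-- the number of different words of length `w` whose highest digit stands at one of the places
`t ≤ i < t + L` -/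
def different (q w t L Y : ℕ) : ℕ := ((Ico t (t + L)).image fun i => word q w i Y).card

/-- the expected number of different words of length `w` at `L` places -/
noncomputable def expected (q w L : ℕ) : ℝ := (q : ℝ) ^ w * (1 - Real.exp (-(L / (q : ℝ) ^ w)))

/-- the law for the window `t ≤ i < t + L`, for all `w` such that the digits of the words stand at the
places `lo` and higher -/
def Complexity (q lo t L : ℕ) (ε : ℝ) (Y : ℕ) : Prop :=
  ∀ w : ℕ, lo + w ≤ t + 1 →
    |(different q w t L Y : ℝ) - expected q w L| ≤ ε * expected q w L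

open Classical in
/-- **The complexity law** for (1) the digits of the multiples `m p ^ N + y`, `1 ≤ m ≤ M`, (2) the
lowest digits of the numbers `l p ^ n`, `0 ≤ n < M`, where `l` is not divisible by `q` (for instance
`l = p ^ n₀`). -/
theorem result (p q : ℕ) (hp : 2 ≤ p) (hq : 2 ≤ q) (hpq : p.Coprime q) (A ε : ℝ) (hε : 0 < ε) :
    (∃ L₀ M₀ : ℕ, ∀ M : ℕ, M₀ ≤ M → ∀ N y : ℕ, (N : ℝ) ≤ A * log M →
      ∀ t L : ℕ, L₀ ≤ L → q ^ (t + L) ≤ p ^ N →
      (((Icc 1 M).filter fun m => ¬ Complexity q 0 t L ε (m * p ^ N + y)).card : ℝ) ≤ ε * M) ∧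
    (q.Prime → ∀ δ : ℝ, 0 < δ → ∃ L₀ M₀ : ℕ, ∀ M : ℕ, M₀ ≤ M → ∀ l lo t L : ℕ, ¬ q ∣ l →
      δ * log M ≤ lo → lo ≤ t → L₀ ≤ L → ((t + L : ℕ) : ℝ) ≤ A * log M →
      (((range M).filter fun n => ¬ Complexity q lo t L ε (l * p ^ n)).card : ℝ) ≤ ε * M) := by
  constructor
  · obtain ⟨A', hA', S, hT, hS⟩ := Pool.Agent.N639.FH.fam_mul hp hq hpq A
    obtain ⟨L₀, h0⟩ := Pool.Agent.N639.FH.low4 hq (Pool.Agent.N639.FH.tg_half hT) hε
    obtain ⟨M₀, hM₀⟩ := Filter.eventually_atTop.1 (h0.and (Filter.eventually_ge_atTop 1))
    refine ⟨L₀, M₀, fun M hM N y hN t L hL h => ?_⟩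
    obtain ⟨h1, h4⟩ := hM₀ M hM
    obtain ⟨g1, g2⟩ := hS M h4 N y (t + L) hN h
    have key := h1 ℕ (Icc 1 M) (fun m => m * p ^ N + y) 0 t L hL (by
      push_cast at g1
      have : (0 : ℝ) ≤ t := Nat.cast_nonneg t
      linarith) g2
    have hc : ((Icc 1 M).card : ℝ) = M := by rw [Nat.card_Icc]; simp
    rw [hc] at key
    exact key
  · intro hqp δ hδ
    obtain ⟨A', hA', S, hT, hS⟩ := Pool.Agent.N639.FH.fam_pow hp hqp hpq hδ A
    obtain ⟨L₀, h0⟩ := Pool.Agent.N639.FH.low4 hq (Pool.Agent.N639.FH.tg_half hT) hε
    obtain ⟨M₀, hM₀⟩ := Filter.eventually_atTop.1 (h0.and (Filter.eventually_ge_atTop 1))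
    refine ⟨L₀, M₀, fun M hM l lo t L hl hlo hlt hL htL => ?_⟩
    obtain ⟨h1, h4⟩ := hM₀ M hM
    obtain ⟨g1, g2⟩ := hS M h4 l lo (t + L) hl hlo (by omega) htL
    have key := h1 ℕ (range M) (fun n => l * p ^ n) lo t L hL (by
      push_cast at g1
      have : (0 : ℝ) ≤ t := Nat.cast_nonneg t
      linarith) g2
    rw [card_range] at key
    exact key

end Pool.Agent.Results.MP_b08cb4_nt.ComplexityLaw
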