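import Pool.Agent.N639.FH.FinQ

/-!
# The longest repeated word in the digits of multiples of `p ^ N` and in the lowest digits of `p ^ n`

In `L` random digits in base `q` the longest word which occurs twice has `(2 + o(1)) log_q L` digits. We
show that the same holds, for all `L → ∞` at the same time, for the blocks of `L` consecutive digits
below any given place, (1) for almost all multiples `m p ^ N + y`, `m ≤ M`, where `p, q ≥ 2` are coprime,
`N ≤ A log M` and `A`, `y` are arbitrary; (2) if `q` is prime, for almost all powers `p ^ n`,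
`n₀ ≤ n < n₀ + M`, and the places between `δ log M` and `A log M`, with `A` as large as we like.

Proof. Tests with a bounded number of words have errors `O(M ^ (-c))`: for (1) see
`Pool/Agent/Y933/KE/Pows.lean` (helper933, by the subspace theorem), for (2) this follows from the
exponential sums over powers modulo prime powers of `Pool/Agent/W301/TD/ExpSum.lean` (method of Korobov).
The law follows from the first moment of the number of repetitions, and from a fourth moment for the
pairs of places in different halves. Authors: helper639, with parts by helper346, helper407 and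
helper586.
-/

set_option autoImplicit false

namespace Pool.Agent.Results.MP_b08cb4_nt.LongestRepeatedWord

open Finset Real

/-- the word of `w` digits of `Y` in base `q` whose highest digit stands at the place `i` (the place
of `q ^ i`), read as an integer between `0` and `q ^ w - 1` -/
def word (q w i Y : ℕ) : ℕ := Y / q ^ (i + 1 - w) % q ^ w

/-- some word of length `w` stands twice (with highest digits at different places `i < j`) inside
the block of the `L` digits at the places `h - L, …, h - 1` -/
def Repeated (q w h L Y : ℕ) : Prop :=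
  ∃ i j : ℕ, h + w ≤ i + 1 + L ∧ i < j ∧ j < h ∧ word q w i Y = word q w j Y

/-- the length of the longest repeated word in the block of the `L` digits below the place `h` is
between `(2 - ε) log_q L` and `(2 + ε) log_q L`, for all `L ≥ L₀` for which the block lies at the
places `lo` and higher -/
def Law (q L₀ lo h : ℕ) (ε : ℝ) (Y : ℕ) : Prop :=
  ∀ L : ℕ, L₀ ≤ L → lo + L ≤ h →
    (∀ w : ℕ, (2 + ε) * log L ≤ w * log q → ¬ Repeated q w h L Y) ∧
    (∀ w : ℕ, w * log q ≤ (2 - ε) * log L → Repeated q w h L Y)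

open Classical in
/-- **The longest repeated word** in (1) the digits of the multiples `m p ^ N + y`, `1 ≤ m ≤ M`,
(2) the lowest digits of the numbers `l p ^ n`, `0 ≤ n < M`, where `l` is not divisible by `q` (for
instance `l = p ^ n₀`). -/
theorem result (p q : ℕ) (hp : 2 ≤ p) (hq : 2 ≤ q) (hpq : p.Coprime q) (A ε : ℝ) (hε : 0 < ε) :
    (∃ L₀ M₀ : ℕ, ∀ M : ℕ, M₀ ≤ M → ∀ N y h : ℕ, (N : ℝ) ≤ A * log M → q ^ h ≤ p ^ N →
      (((Icc 1 M).filter fun m => ¬ Law q L₀ 0 h ε (m * p ^ N + y)).card : ℝ) ≤ ε * M) ∧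
    (q.Prime → ∀ δ : ℝ, 0 < δ → ∃ L₀ M₀ : ℕ, ∀ M : ℕ, M₀ ≤ M → ∀ l lo h : ℕ, ¬ q ∣ l →
      δ * log M ≤ lo → lo ≤ h → (h : ℝ) ≤ A * log M →
      (((range M).filter fun n => ¬ Law q L₀ lo h ε (l * p ^ n)).card : ℝ) ≤ ε * M) := by
  constructor
  · obtain ⟨A', hA', S, hT, hS⟩ := Pool.Agent.N639.FH.fam_mul hp hq hpq A
    obtain ⟨L₀, h0⟩ := Pool.Agent.N639.FH.low2 hq (Pool.Agent.N639.FH.tg_half hT) hε
    obtain ⟨M₀, hM₀⟩ := Filter.eventually_atTop.1 (h0.and (Filter.eventually_ge_atTop 1))
    refine ⟨L₀, M₀, fun M hM N y h hN hh => ?_⟩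
    obtain ⟨h1, h4⟩ := hM₀ M hM
    obtain ⟨g1, g2⟩ := hS M h4 N y h hN hh
    have key := h1 ℕ (Icc 1 M) (fun m => m * p ^ N + y) 0 h g1 g2
    have hc : ((Icc 1 M).card : ℝ) = M := by rw [Nat.card_Icc]; simp
    rw [hc] at key
    exact key
  · intro hqp δ hδ
    obtain ⟨A', hA', S, hT, hS⟩ := Pool.Agent.N639.FH.fam_pow hp hqp hpq hδ A
    obtain ⟨L₀, h0⟩ := Pool.Agent.N639.FH.low2 hq (Pool.Agent.N639.FH.tg_half hT) hε
    obtain ⟨M₀, hM₀⟩ := Filter.eventually_atTop.1 (h0.and (Filter.eventually_ge_atTop 1))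
    refine ⟨L₀, M₀, fun M hM l lo h hl hlo hlh hh => ?_⟩
    obtain ⟨h1, h4⟩ := hM₀ M hM
    obtain ⟨g1, g2⟩ := hS M h4 l lo h hl hlo hlh hh
    have key := h1 ℕ (range M) (fun n => l * p ^ n) lo h g1 g2
    rw [card_range] at key
    exact key

end Pool.Agent.Results.MP_b08cb4_nt.LongestRepeatedWord
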