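import Pool.Agent.N639.FH.FinQ

/-!
# The Poisson law for words in the digits of multiples of `p ^ N` and in the lowest digits of `p ^ n`

Consider a set of `r` words of length `w` in base `q` such that two of them never overlap in more than
half of their length, and a window of `L` places, where `L → ∞` and `L / q ^ w` is bounded from above and
below. The number of occurrences of the words in the window has asymptotically the Poisson distribution
with the mean `r L / q ^ w`, uniformly in the words and the window, (1) for the multiples `m p ^ N + y`,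
`1 ≤ m ≤ M`, where `p, q ≥ 2` are coprime, `N ≤ A log M` and `A`, `y` are arbitrary; (2) if `q` is prime, for
the powers `p ^ n`, `n₀ ≤ n < n₀ + M`, and the places between `δ log M` and `A log M`, with `A` as large
as we like.

Proof. Tests with a bounded number of words have errors `O(M ^ (-c))`: for (1) see
`Pool/Agent/Y933/KE/Pows.lean` (helper933, by the subspace theorem), for (2) this follows from the
exponential sums over powers modulo prime powers of `Pool/Agent/W301/TD/ExpSum.lean` (method of Korobov).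
The binomial moments of the number of occurrences are sums of such tests over the words of length
`O(log log M)`. Authors: helper639, with parts by helper199, helper711, helper79 and helper586.
-/

set_option autoImplicit false

namespace Pool.Agent.Results.MP_b08cb4_nt.PoissonLaw

open Finset Real

/-- the word of `w` digits of `Y` in base `q` whose highest digit stands at the place `i` (the place
of `q ^ i`), read as an integer between `0` and `q ^ w - 1` -/
def word (q w i Y : ℕ) : ℕ := Y / q ^ (i + 1 - w) % q ^ w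

/-- the number of the places `t ≤ i < t + L` at which the highest digit of a word of the set `W`
of words of length `w` stands -/
def number (q w t L : ℕ) (W : Finset ℕ) (Y : ℕ) : ℕ :=
  ((Ico t (t + L)).filter fun i => word q w i Y ∈ W).card

/-- the last `w - k` digits of a word of `W` are never the first `w - k` digits of a word of `W`, for
`1 ≤ k ≤ w / 2` -/
def NoLargeOverlap (q w : ℕ) (W : Finset ℕ) : Prop :=
  ∀ c ∈ W, ∀ c' ∈ W, ∀ k : ℕ, 1 ≤ k → 2 * k ≤ w → c % q ^ (w - k) ≠ c' / q ^ k

/-- `prob` is up to `ε` the probability of the value `k` under the Poisson law with mean `v` -/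
def NearPoisson (v : ℝ) (k : ℕ) (ε prob : ℝ) : Prop := |prob - exp (-v) * v ^ k / k.factorial| ≤ ε

open Classical in
/-- **The Poisson law** for (1) the digits of the multiples `m p ^ N + y`, `1 ≤ m ≤ M`, (2) the
lowest digits of the numbers `l p ^ n`, `0 ≤ n < M`, where `l` is not divisible by `q` (for instance
`l = p ^ n₀`). -/
theorem result (p q : ℕ) (hp : 2 ≤ p) (hq : 2 ≤ q) (hpq : p.Coprime q) (A : ℝ) (r k : ℕ)
    (Λ ε : ℝ) (hΛ : 0 < Λ) (hε : 0 < ε) :
    (∃ L₀ M₀ : ℕ, ∀ M : ℕ, M₀ ≤ M → ∀ N y : ℕ, (N : ℝ) ≤ A * log M →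
      ∀ (w t L : ℕ) (W : Finset ℕ), L₀ ≤ L → q ^ (t + L) ≤ p ^ N → w ≤ t + 1 →
      (L : ℝ) ≤ Λ * (q : ℝ) ^ w → (q : ℝ) ^ w ≤ Λ * L → W ⊆ range (q ^ w) → W.card = r →
      NoLargeOverlap q w W → NearPoisson (r * (L / (q : ℝ) ^ w)) k ε
        ((((Icc 1 M).filter fun m => number q w t L W (m * p ^ N + y) = k).card : ℝ) / M)) ∧
    (q.Prime → ∀ δ : ℝ, 0 < δ → ∃ L₀ M₀ : ℕ, ∀ M : ℕ, M₀ ≤ M → ∀ l : ℕ, ¬ q ∣ l →
      ∀ (w t L : ℕ) (W : Finset ℕ), L₀ ≤ L → δ * log M + w ≤ t → ((t + L : ℕ) : ℝ) ≤ A * log M →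
      (L : ℝ) ≤ Λ * (q : ℝ) ^ w → (q : ℝ) ^ w ≤ Λ * L → W ⊆ range (q ^ w) → W.card = r →
      NoLargeOverlap q w W → NearPoisson (r * (L / (q : ℝ) ^ w)) k ε
        ((((range M).filter fun n => number q w t L W (l * p ^ n) = k).card : ℝ) / M)) := by
  constructor
  · obtain ⟨A', hA', S, hT, hS⟩ := Pool.Agent.N639.FH.fam_mul hp hq hpq A
    obtain ⟨L₀, h0⟩ := Pool.Agent.N639.FH.low3 hq (Pool.Agent.N639.FH.tg_half hT) r k Λ hΛ hε
    obtain ⟨M₀, hM₀⟩ := Filter.eventually_atTop.1 (h0.and (Filter.eventually_ge_atTop 1))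
    refine ⟨L₀, M₀, fun M hM N y hN w t L W hL h hw k1 k2 k3 k4 k5 => ?_⟩
    obtain ⟨h1, h4⟩ := hM₀ M hM
    obtain ⟨g1, g2⟩ := hS M h4 N y (t + L) hN h
    have key := h1 ℕ (Icc 1 M) (fun m => m * p ^ N + y) 0 t w L W hL (by
      push_cast at g1
      have : (0 : ℝ) ≤ t := Nat.cast_nonneg t
      linarith) (by omega) g2 k1 k2 k3 k4 k5
    have hc : ((Icc 1 M).card : ℝ) = M := by rw [Nat.card_Icc]; simp
    rw [hc] at key
    unfold NearPoisson
    exact key
  · intro hqp δ hδ
    obtain ⟨A', hA', S, hT, hS⟩ := Pool.Agent.N639.FH.fam_pow hp hqp hpq hδ A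
    obtain ⟨L₀, h0⟩ := Pool.Agent.N639.FH.low3 hq (Pool.Agent.N639.FH.tg_half hT) r k Λ hΛ hε
    obtain ⟨M₀, hM₀⟩ := Filter.eventually_atTop.1 (h0.and (Filter.eventually_ge_atTop 1))
    refine ⟨L₀, M₀, fun M hM l hl w t L W hL htw htL k1 k2 k3 k4 k5 => ?_⟩
    obtain ⟨h1, h4⟩ := hM₀ M hM
    have hlM : 0 ≤ log (M : ℝ) := Real.log_natCast_nonneg M
    have hwt : w ≤ t := by
      have : (w : ℝ) ≤ t := by nlinarith
      exact_mod_cast this
    obtain ⟨g1, g2⟩ := hS M h4 l (t - w) (t + L) hl (by
      rw [Nat.cast_sub hwt]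
      linarith) (by omega) htL
    have key := h1 ℕ (range M) (fun n => l * p ^ n) (t - w) t w L W hL (by
      push_cast at g1
      have : (0 : ℝ) ≤ t := Nat.cast_nonneg t
      linarith) (by omega) g2 k1 k2 k3 k4 k5
    rw [card_range] at key
    unfold NearPoisson
    exact key

end Pool.Agent.Results.MP_b08cb4_nt.PoissonLaw
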